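import Pool.Agent.HFW.Final

/-!
Finite type invariants with values in any given nontrivial abelian group recognise the knots of
braid index at most 3, up to orientation, among all knots for which the HOMFLY polynomial of the
knot or of one of its cables decides whether the braid index is at most 3.
-/

namespace Pool.Agent.Results.MP_31fd3b_gt.RecognizeThreeBraids

open Pool.Agent.LibH11 Pool.Agent.IT Pool.Agent.HFW Pool.Agent.T3

/-- The HOMFLY polynomial exists. -/
theorem exists_homfly : ∃ P : (n : ℕ) → Br n → Coeffs, IsHomfly P := HFW.exists_homfly

/-- If the Morton-Franks-Williams inequality for the closure of the word `w` on `n + 1` strands, or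
for one of its cables, is an equality, then the condition on `K'` in the theorem is satisfied. -/
theorem condition_of_detected (n : ℕ) (w : Word) (hd : Detected n w) : n ≤ 2 ∨ Exceeds 3 n w := by
  rcases le_or_gt n 2 with h | h
  · exact Or.inl h
  · exact Or.inr (hd.exceeds h)

/-- Let `A` be a nontrivial abelian group, `K` a knot that is the closure of a braid `b` on three
strands, and `K'` a knot that is the closure of a braid word `w` on `n + 1` strands. Suppose that
`n ≤ 2`, or that the HOMFLY polynomial of `K'` or of one of its cables shows that `K'` is not the
closure of a braid on three strands. If every finite type invariant with values in `A` takes the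
same value on `K` and `K'`, then `K = K'`, or `K'` is `K` with the reversed orientation. -/
theorem result (A : Type*) [AddCommGroup A] [Nontrivial A] (b : Br 2) (h : IsKnot b)
    (n : ℕ) (w : Word) (hw : ∀ x ∈ w, x.1 < n) (h' : IsKnot (ev n w))
    (hd : n ≤ 2 ∨ Exceeds 3 n w)
    (hv : ∀ v : Knot → A, IsFiniteType v → v (closure b h) = v (closure (ev n w) h')) :
    closure b h = closure (ev n w) h' ∨
      ∃ hr : IsKnot (rev b), closure (rev b) hr = closure (ev n w) h' :=
  recognize A b h n w hw h' hd hv

end Pool.Agent.Results.MP_31fd3b_gt.RecognizeThreeBraids
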