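import Pool.Agent.TZ.FinalU

/-!
Rational finite type (Vassiliev) invariants separate the connected sums of 2-bridge knots and generic
arborescent knots (Conway's algebraic knots) up to mutation.
-/

open scoped BigOperators

namespace Pool.Agent.Results.MP_31fd3b_gt.SeparateGenericArborescent

open Pool.Agent.LibH11.Sliced

/-! ### Arborescent knots -/

/-- The diagram with `k` vertical strands added on the left. -/
def shift (k : ℕ) (w : Diag) : Diag := w.map fun p => (p.1, p.2 + k)

/-- A tangle from two strands to two strands, rotated by a quarter turn (clockwise): the left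
output of the rotated tangle is joined, by a minimum on the left, to the left input of `t`, the
right input is joined, by a maximum on the right, to the right output of `t`. -/
def rotate (t : Diag) : Diag := (.cup, 0) :: (shift 1 t ++ [(.cap, 2)])

/-- The closure of a tangle from two strands to two strands, as a long diagram. -/
def closure (t : Diag) : Diag := (.cup, 1) :: (t ++ [(.cap, 1)])

/-- `e` half twists of two strands. -/
def halfTwists (e : ℤ) : Diag := List.replicate e.natAbs (Kind.crs (decide (0 < e)), 0)

/-- Weighted planar trees. `twist e` is a vertex with the weight `e` without children, `join a b` is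
the tree `b` with one more child `a` at its top vertex. -/
inductive Tree
  | twist (e : ℤ) : Tree
  | join (a b : Tree) : Tree

/-- The arborescent tangle of a tree: the rotated tangles of the children of the top vertex and
half twists, one above the other. -/
def Tree.diagram : Tree → Diag
  | .twist e => halfTwists e
  | .join a b => rotate a.diagram ++ b.diagram

/-- The number of the children of the top vertex. -/
def Tree.children : Tree → ℕ
  | .twist _ => 0
  | .join _ b => b.children + 1

/-- Every vertex of the tree has at most one child: the tangle is rational. -/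
def Tree.isRational : Tree → Bool
  | .twist _ => true
  | .join a b => a.isRational && b.children == 0

/-- Sum of fractions (not reduced). -/
def plus (u v : ℤ × ℤ) : ℤ × ℤ := (u.1 * v.2 + v.1 * u.2, u.2 * v.2)

/-- Rotation of a fraction. -/
def turn (v : ℤ × ℤ) : ℤ × ℤ := (-v.2, v.1)

/-- The value of a fraction. -/
def slope (v : ℤ × ℤ) : ℚ := v.1 / v.2

/-- The fraction of the tangle of a tree (not reduced; the numerator is, up to the sign, the
determinant of the closure). -/
def Tree.vec : Tree → ℤ × ℤ
  | .twist e => (-e, 1)
  | .join a b => plus (turn a.vec) b.vec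

/-! ### Vertices and branches -/

/-- A vertex: the sum of the fractions of all its branches and of its half twists, and the list of its
branches. A branch is given by the fractional part of its slope and by a flag: `true` if the branch
contains another vertex with at least three branches, `false` if it is a rational tangle. -/
abbrev Vertex := (ℤ × ℤ) × Multiset (ℚ × Bool)

/-- The vertices with at least three branches of a tree, if the outside of its tangle is a branch
of its top vertex with the fraction `L`. Here `s` contains the branches of the top vertex which have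
been visited, and `f` says whether the top vertex is counted. The outside of the child `a` in
`join a b` has the fraction `turn (plus L b.vec)`. -/
def Tree.vertices : Tree → Multiset (ℚ × Bool) → Bool → ℤ × ℤ → Multiset Vertex
  | .twist e, s, f, L => if f then {(plus L (-e, 1), s)} else 0
  | .join a b, s, f, L =>
      a.vertices {(Int.fract (slope (turn (plus L b.vec))), true)} (decide (2 ≤ a.children))
          (turn (plus L b.vec)) +
        b.vertices ((Int.fract (slope (turn a.vec)), !a.isRational) ::ₘ s) f (plus L (turn a.vec))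

/-- The vertices with at least three branches of the closure of a tree with at least three children
of the top vertex. -/
def Tree.closedVertices (T : Tree) : Multiset Vertex := T.vertices 0 true (0, 1)

/-- The sum of the slopes at a vertex. -/
def Vertex.sum (x : Vertex) : ℚ := slope x.1

/-- The summands of a connected sum: trees with a vertex with at least three branches, and rational
trees. -/
structure Summands where
  trees : List Tree
  rationals : List Tree

/-- All vertices with at least three branches. -/
def Summands.vertices (S : Summands) : Multiset Vertex := (S.trees.map Tree.closedVertices).sum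

/-- All branches of these vertices: sum of the vertex, fractional part of the slope, and flag. -/
def Summands.branches (S : Summands) : Multiset ((ℚ × ℚ) × Bool) :=
  S.vertices.bind fun x => x.2.map fun b => ((Vertex.sum x, b.1), b.2)

/-! ### Forms -/

/-- The binary quadratic form of a branch: `(x - β y) (x - β y + σ y) / σ`, where `β` is the slope
of the branch and `σ` the sum of the vertex. -/
def form (p : ℚ × ℚ) (x y : ℤ) : ℚ := (x - p.2 * y) * (x - p.2 * y + p.1 * y) / p.1

/-- The binary quadratic form of the 2-bridge knot which is the closure of the rational tangle with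
the fraction `a / b`: `x (b x - a y) / a`. -/
def twoBridgeForm (v : ℤ × ℤ) (x y : ℤ) : ℚ := x * (v.2 * x - v.1 * y) / v.1

/-- Equivalence of binary quadratic forms under `GL₂(ℤ)`. -/
def Equivalent (f g : ℤ → ℤ → ℚ) : Prop :=
  ∃ a b c d : ℤ, (a * d - b * c = 1 ∨ a * d - b * c = -1) ∧
    ∀ x y : ℤ, f (a * x + b * y) (c * x + d * y) = g x y

/-! ### Generic sums -/

/-- The trees have at least three branches at the root, the other summands are rational. -/
def Summands.IsProper (S : Summands) : Prop :=
  (∀ T ∈ S.trees, 3 ≤ T.children) ∧ ∀ U ∈ S.rationals, U.isRational = true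

/-- Nondegenerate summands: no slope is infinite (no weight is zero) or an integer, no two slopes at a
vertex with the sum `σ` have a sum congruent to `σ` modulo 1, and the sums of different vertices are
different. -/
structure Summands.IsNondegenerate (S : Summands) : Prop where
  weights : ∀ x ∈ S.vertices, x.1.2 ≠ 0
  slopes : ∀ x ∈ S.vertices, ∀ b ∈ x.2, b.1 ≠ 0
  pairs : ∀ x ∈ S.vertices, ∀ b c : ℚ, ({b, c} : Multiset ℚ) ≤ x.2.map Prod.fst →
    ¬ ∃ n : ℤ, b + c - Vertex.sum x = n
  sums : (S.vertices.map Vertex.sum).Nodup

/-- Generic summands: nondegenerate, and the form of a branch which contains another vertex is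
equivalent to the forms of at most two branches (these are the branches on the two sides of an edge
between two vertices), and neither to the form of one of the 2-bridge knots nor to the form `x y` of the
unknot. Example with two vertices, without 2-bridge knots: the tree with the children `twist 2`,
`twist 3`, `A` and the weight `0`, where `A` has the children `twist 3`, `twist 4` and the weight `0`. The
sums of the slopes are `-37/42` and `-37/60`; the closure is a knot with the determinant `37`. -/
structure Summands.IsGeneric (S : Summands) : Prop where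
  nondegenerate : S.IsNondegenerate
  edges : ∀ p ∈ S.branches, p.2 = true → ∀ s : Multiset (ℚ × ℚ), s ≤ S.branches.map Prod.fst →
    (∀ q ∈ s, Equivalent (form p.1) (form q)) → s.card ≤ 2
  twoBridge : ∀ p ∈ S.branches, p.2 = true → ∀ U ∈ S.rationals,
    ¬ Equivalent (form p.1) (twoBridgeForm U.vec)
  unknot : ∀ p ∈ S.branches, p.2 = true →
    ¬ Equivalent (form p.1) fun x y => ((x * y : ℤ) : ℚ)

/-- The complexity: the number of the vertices plus the number of their branches. -/
def Summands.complexity (S : Summands) : ℕ := (S.vertices.map fun x => x.2.card + 1).sum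

/-- The long diagram of the connected sum of the closures of a list of trees. -/
def sumDiagram (Ts : List Tree) : Diag := (Ts.map fun T => closure T.diagram).flatten

/-- `K` is the connected sum of the closures of the summands. -/
def IsConnectedSum (S : Summands) (K : Knot) : Prop :=
  S.IsProper ∧ ∃ h : IsLongKnot (sumDiagram (S.trees ++ S.rationals)), K = ofDiag _ h

/-! ### Mutation -/

/-- The number of strands at the top of a diagram with `n` strands at the bottom. -/
def strands : ℕ → Diag → Option ℕ
  | n, [] => some n
  | n, (k, i) :: w => if i + k.ins ≤ n then strands (n - k.ins + k.outs) w else none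

/-- A slice turned upside down: minima and maxima are exchanged, crossings keep their kind. -/
def flipKind : Kind → Kind
  | .cup => .cap
  | .cap => .cup
  | .crs e => .crs e

/-- The diagram rotated by `π` about a horizontal axis in the plane of the diagram. -/
def flip (w : Diag) : Diag := (w.map fun p => (flipKind p.1, p.2)).reverse

/-- The diagram with `n` strands at the bottom, rotated by `π` about a vertical axis in the plane of
the diagram. -/
def turnOver : ℕ → Diag → Diag
  | _, [] => []
  | n, (k, i) :: w => (k, n - k.ins - i) :: turnOver (n - k.ins + k.outs) w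

/-- `K'` is obtained from `K` by a mutation: in a long diagram of `K` a tangle `t` from two strands
to two strands is replaced by the tangle rotated by `π` about a horizontal or vertical axis. -/
def IsMutant (K K' : Knot) : Prop :=
  ∃ (u t t' v : Diag) (i m : ℕ) (h : IsLongKnot (u ++ shift i t ++ v))
    (h' : IsLongKnot (u ++ shift i t' ++ v)), strands 1 u = some m ∧ i + 2 ≤ m ∧
    strands 2 t = some 2 ∧ (t' = flip t ∨ t' = turnOver 2 t) ∧
    K = ofDiag (u ++ shift i t ++ v) h ∧ K' = ofDiag (u ++ shift i t' ++ v) h'

/-- `K` and `K'` are related by finitely many mutations. -/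
def MutationEquivalent : Knot → Knot → Prop := Relation.EqvGen IsMutant

/-- The closures of `T` and `T'` are knots and related by mutations. -/
def ClosuresMutationEquivalent (T T' : Tree) : Prop :=
  ∃ (h : IsLongKnot (closure T.diagram)) (h' : IsLongKnot (closure T'.diagram)),
    MutationEquivalent (ofDiag (closure T.diagram) h) (ofDiag (closure T'.diagram) h')

/-! ### Comparison with the definitions of the proof -/

open Pool.Agent.MTR Pool.Agent.MTA Pool.Agent.UA Pool.Agent.UB
open Pool.Agent.TwoBr Pool.Agent.Mont Pool.Agent.TV Pool.Agent.TW Pool.Agent.TZ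
open Pool.Agent.TB hiding vec

/-- the tree in the notation of the proof -/
def tr : Tree → Tr
  | .twist e => .pw e
  | .join a b => .cons (tr a) (tr b)

theorem dg_tr : ∀ T : Tree, (tr T).dg = T.diagram
  | .twist _ => rfl
  | .join a b => by
    show Pool.Agent.UA.rotD (tr a).dg ++ (tr b).dg = _
    rw [dg_tr a, dg_tr b]
    rfl

theorem kids_tr : ∀ T : Tree, (tr T).kids = T.children
  | .twist _ => rfl
  | .join _ b => congrArg (· + 1) (kids_tr b)

theorem rat_tr : ∀ T : Tree, (tr T).Rat ↔ T.isRational = true
  | .twist _ => ⟨fun _ => rfl, fun _ => trivial⟩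
  | .join a b => by
    show (tr a).Rat ∧ (tr b).kids = 0 ↔ (a.isRational && b.children == 0) = true
    rw [rat_tr a, kids_tr b, Bool.and_eq_true, beq_iff_eq]

theorem vec_tr : ∀ T : Tree, Pool.Agent.UA.vec (tr T) = T.vec
  | .twist _ => rfl
  | .join a b => by
    show Pool.Agent.MTR.addv (rv (Pool.Agent.UA.vec (tr a))) (Pool.Agent.UA.vec (tr b)) = _
    rw [vec_tr a, vec_tr b]
    rfl

/-- the flags are forgotten -/
def forget (x : Vertex) : (ℤ × ℤ) × Multiset ℚ := (x.1, x.2.map Prod.fst)

theorem vt_tr : ∀ (T : Tree) (s : Multiset (ℚ × Bool)) (f : Bool) (L : ℤ × ℤ),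
    vt (tr T) (s.map Prod.fst) f L = (T.vertices s f L).map forget := by
  intro T
  induction T with
  | twist e =>
    intro s f L
    cases f
    · rfl
    · exact (Multiset.map_singleton _ _).symm
  | join a b iha ihb =>
    intro s f L
    have e1 := iha {(Int.fract (slope (turn (plus L b.vec))), true)} (decide (2 ≤ a.children))
      (turn (plus L b.vec))
    have e2 := ihb ((Int.fract (slope (turn a.vec)), !a.isRational) ::ₘ s) f (plus L (turn a.vec))
    rw [Multiset.map_singleton] at e1
    rw [Multiset.map_cons] at e2
    show _ = Multiset.map forget (_ + _)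
    rw [Multiset.map_add, ← e1, ← e2]
    show vt (tr a) {Int.fract (slp (rv (addv L (Pool.Agent.UA.vec (tr b)))))}
        (decide (2 ≤ (tr a).kids)) (rv (addv L (Pool.Agent.UA.vec (tr b)))) +
      vt (tr b) (Int.fract (slp (rv (Pool.Agent.UA.vec (tr a)))) ::ₘ s.map Prod.fst) f
        (addv L (rv (Pool.Agent.UA.vec (tr a)))) = _
    rw [vec_tr a, vec_tr b, kids_tr a]
    rfl

theorem vt0_tr (T : Tree) : vt0 (tr T) = T.closedVertices.map forget :=
  vt_tr T 0 true (0, 1)

/-- the top vertex -/
theorem top_mem : ∀ (T : Tree) (s : Multiset (ℚ × Bool)) (L : ℤ × ℤ),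
    ∃ x ∈ T.vertices s true L, slope x.1 = slope (plus L T.vec) ∧ s ≤ x.2 := by
  intro T
  induction T with
  | twist e =>
    intro s L
    exact ⟨(plus L (-e, 1), s), Multiset.mem_singleton_self _, rfl, le_rfl⟩
  | join a b _ ihb =>
    intro s L
    obtain ⟨x, h1, h2, h3⟩ := ihb ((Int.fract (slope (turn a.vec)), !a.isRational) ::ₘ s)
      (plus L (turn a.vec))
    refine ⟨x, Multiset.mem_add.2 (Or.inr h1), ?_, (Multiset.le_cons_self _ _).trans h3⟩
    rw [h2]
    congr 1
    show plus (plus L (turn a.vec)) b.vec = plus L (plus (turn a.vec) b.vec)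
    simp only [plus]
    ext <;> ring

theorem top_rat : ∀ (T : Tree) (L : ℤ × ℤ) (q : ℚ × ℚ),
    Pool.Agent.TZ.top (tr T) L = some q →
    T.isRational = false := by
  intro T
  induction T with
  | twist e => intro L q h; exact absurd h (by simp [tr, Pool.Agent.TZ.top])
  | join a b iha _ =>
    intro L q h
    rw [tr, Pool.Agent.TZ.top, kids_tr] at h
    by_cases hb : b.children = 0
    · rw [if_pos hb] at h
      show (a.isRational && b.children == 0) = false
      rw [iha _ _ h]
      rfl
    · show (a.isRational && b.children == 0) = false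
      rw [Bool.and_eq_false_iff]
      exact Or.inr (beq_eq_false_iff_ne.2 hb)

/-- the upper end of an edge is a branch with the flag `true` -/
theorem eg_tr : ∀ (T : Tree) (s : Multiset (ℚ × Bool)) (f : Bool) (L : ℤ × ℤ)
    (e : (ℚ × ℚ) × (ℚ × ℚ)), e ∈ eg (tr T) f L →
    ∃ x ∈ T.vertices s f L, slope x.1 = e.1.1 ∧ (e.1.2, true) ∈ x.2 := by
  intro T
  induction T with
  | twist e => intro s f L x hx; exact absurd hx (Multiset.notMem_zero _)
  | join a b iha ihb =>
    intro s f L e he
    have he' : e ∈ ed1 (slp (addv L (Pool.Agent.UA.vec (.cons (tr a) (tr b))))) f (tr a)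
          (rv (addv L (Pool.Agent.UA.vec (tr b)))) +
        eg (tr a) (decide (2 ≤ (tr a).kids)) (rv (addv L (Pool.Agent.UA.vec (tr b)))) +
        eg (tr b) f (addv L (rv (Pool.Agent.UA.vec (tr a)))) := he
    rcases Multiset.mem_add.1 he' with he' | he'
    · rcases Multiset.mem_add.1 he' with he' | he'
      · cases f with
        | false => exact absurd he' (Multiset.notMem_zero _)
        | true =>
          have k : ∀ q : ℚ × ℚ, Pool.Agent.TZ.top (tr a) (rv (addv L (Pool.Agent.UA.vec (tr b)))) = some q →
              e = ((slp (addv L (Pool.Agent.UA.vec (.cons (tr a) (tr b)))),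
                Int.fract (slp (rv (Pool.Agent.UA.vec (tr a))))), q) →
              ∃ x ∈ (Tree.join a b).vertices s true L,
                slope x.1 = e.1.1 ∧ (e.1.2, true) ∈ x.2 := fun q hq hr => by
            obtain ⟨x, h1, h2, h3⟩ := top_mem b
              ((Int.fract (slope (turn a.vec)), !a.isRational) ::ₘ s) (plus L (turn a.vec))
            refine ⟨x, Multiset.mem_add.2 (Or.inr h1), ?_, ?_⟩
            · rw [h2, hr]
              have : Pool.Agent.UA.vec (Tr.cons (tr a) (tr b)) = (Tree.join a b).vec :=
                vec_tr (.join a b)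
              rw [this]
              show slope _ = slope (plus L (plus (turn a.vec) b.vec))
              congr 1
              simp only [plus]
              ext <;> ring
            · refine Multiset.mem_of_le h3 ?_
              rw [hr, vec_tr a]
              have := top_rat a _ q hq
              rw [this]
              exact Multiset.mem_cons_self _ _
          unfold ed1 at he'
          rw [if_pos rfl] at he'
          cases hq : Pool.Agent.TZ.top (tr a) (rv (addv L (Pool.Agent.UA.vec (tr b)))) with
          | none => rw [hq] at he'; exact absurd he' (Multiset.notMem_zero _)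
          | some q =>
            rw [hq] at he'
            exact k q hq (Multiset.mem_singleton.1 he')
      · rw [vec_tr b, kids_tr a] at he'
        obtain ⟨x, h1, h2⟩ := iha {(Int.fract (slope (turn (plus L b.vec))), true)} _ _ e he'
        exact ⟨x, Multiset.mem_add.2 (Or.inl h1), h2⟩
    · rw [vec_tr a] at he'
      obtain ⟨x, h1, h2⟩ := ihb ((Int.fract (slope (turn a.vec)), !a.isRational) ::ₘ s) _ _ e he'
      exact ⟨x, Multiset.mem_add.2 (Or.inr h1), h2⟩

theorem V0_tr (Ts : List Tree) : V0 (Ts.map tr) = ((Ts.map Tree.closedVertices).sum).map forget := by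
  unfold V0
  induction Ts with
  | nil => rfl
  | cons T Ts ih =>
    rw [List.map_cons, List.map_cons, List.sum_cons, ih, vt0_tr, List.map_cons, List.sum_cons,
      Multiset.map_add]

theorem BR0_tr (S : Summands) : BR0 (S.trees.map tr) = S.branches.map Prod.fst := by
  rw [AsmS.BR0_eq, V0_tr]
  unfold Summands.branches Summands.vertices
  rw [Multiset.bind_map, Multiset.map_bind]
  refine Multiset.bind_congr fun x _ => ?_
  rw [Multiset.map_map]
  show Multiset.map _ (x.2.map Prod.fst) = _
  rw [Multiset.map_map]
  rfl

theorem EG0_tr (S : Summands) (e : (ℚ × ℚ) × (ℚ × ℚ)) (he : e ∈ EG0 (S.trees.map tr)) :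
    (e.1, true) ∈ S.branches := by
  obtain ⟨T, hT, h⟩ := AsmS.mem_sum eg0 _ e he
  obtain ⟨U, hU, rfl⟩ := List.mem_map.1 hT
  obtain ⟨x, h1, h2, h3⟩ := eg_tr U 0 true (0, 1) e h
  unfold Summands.branches
  rw [Multiset.mem_bind]
  refine ⟨x, Multiset.mem_of_le (AsmS.le_sum Tree.closedVertices S.trees U hU) h1, ?_⟩
  rw [Multiset.mem_map]
  refine ⟨_, h3, ?_⟩
  show ((slope x.1, e.1.2), true) = (e.1, true)
  rw [h2]

theorem prp {S : Summands} (h : S.IsProper) : Prp (S.trees.map tr) (S.rationals.map tr) := by
  refine ⟨fun T hT => ?_, fun T hT => ?_⟩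
  · obtain ⟨U, hU, rfl⟩ := List.mem_map.1 hT
    rw [kids_tr]
    exact h.1 U hU
  · obtain ⟨U, hU, rfl⟩ := List.mem_map.1 hT
    rw [rat_tr]
    exact h.2 U hU

theorem ndr {S : Summands} (h : S.IsNondegenerate) : NdR (S.trees.map tr) := by
  have hV : V0 (S.trees.map tr) = S.vertices.map forget := V0_tr S.trees
  refine ⟨?_, ?_, ?_, ?_⟩
  · intro x hx
    rw [hV] at hx
    obtain ⟨y, hy, rfl⟩ := Multiset.mem_map.1 hx
    exact h.weights y hy
  · intro x hx h0
    rw [hV] at hx
    obtain ⟨y, hy, rfl⟩ := Multiset.mem_map.1 hx
    obtain ⟨b, hb, h1⟩ := Multiset.mem_map.1 h0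
    exact h.slopes y hy b hb h1
  · intro x hx
    rw [hV] at hx
    obtain ⟨y, hy, rfl⟩ := Multiset.mem_map.1 hx
    exact h.pairs y hy
  · rw [hV, Multiset.map_map]
    exact h.sums

theorem two {S : Summands} (h : S.IsGeneric) : Two (S.trees.map tr) (S.rationals.map tr) := by
  intro e he U hU
  obtain ⟨U, hU', rfl⟩ := List.mem_map.1 hU
  have k := h.twoBridge _ (EG0_tr S e he) rfl U hU'
  intro h1
  refine k ?_
  obtain ⟨a, b, c, d, h2, h3⟩ := h1
  refine ⟨a, b, c, d, h2, fun x y => ?_⟩
  have h4 := h3 x y
  have h5 : f2 (tr U) x y = twoBridgeForm U.vec x y := by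
    unfold f2 fmv twoBridgeForm
    rw [vec_tr]
    have : dt (0, 1) U.vec = U.vec.1 := congrArg Prod.fst (AsmZ.addv_one _)
    rw [this]
    push_cast
    ring
  rw [← h5]
  exact h4

theorem edg {S : Summands} (h : S.IsGeneric) : Edg (S.trees.map tr) := by
  intro e he s hs hq
  rw [BR0_tr] at hs
  exact h.edges _ (EG0_tr S e he) rfl s hs hq

theorem ntv {S : Summands} (h : S.IsGeneric) : Ntv (S.trees.map tr) := by
  intro e he
  exact h.unknot _ (EG0_tr S e he) rfl

theorem cx_tr (S : Summands) : Pool.Agent.TZ.cx (S.trees.map tr) = S.complexity := by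
  unfold Pool.Agent.TZ.cx Summands.complexity
  rw [show V0 (S.trees.map tr) = S.vertices.map forget from V0_tr S.trees, Multiset.map_map]
  refine congrArg Multiset.sum (Multiset.map_congr rfl fun x _ => ?_)
  show (x.2.map Prod.fst).card + 1 = x.2.card + 1
  rw [Multiset.card_map]

theorem vs_tr (S : Summands) : VS0 (S.trees.map tr) =
    S.vertices.map fun x => (Vertex.sum x, x.2.map Prod.fst) := by
  rw [AsmS.VS0_eq, show V0 (S.trees.map tr) = S.vertices.map forget from V0_tr S.trees,
    Multiset.map_map]
  rfl

theorem sum_tr (Ts : List Tree) : Pool.Agent.UA.cls (Ts.map tr) = sumDiagram Ts := by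
  unfold Pool.Agent.UA.cls sumDiagram
  rw [List.map_map]
  congr 1
  refine List.map_congr_left fun T _ => ?_
  show Pool.Agent.UA.cl (tr T).dg = _
  rw [dg_tr]
  rfl

/-! ### Mutation -/

theorem strands_eq : ∀ (w : Diag) (n : ℕ), cnt n w = strands n w
  | [], _ => rfl
  | (k, i) :: w, n => by
    show (if _ then cnt _ w else none) = if _ then strands _ w else none
    rw [strands_eq w]

theorem flipKind_eq (k : Kind) : flipKind k = Pool.Agent.Mont.flipK k := by cases k <;> rfl

theorem flip_eq (w : Diag) : Pool.Agent.Mont.flipD w = flip w := by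
  have h : flipKind = Pool.Agent.Mont.flipK := funext flipKind_eq
  unfold flip Pool.Agent.Mont.flipD
  rw [h]

theorem turnOver_eq : ∀ (w : Diag) (n : ℕ), Pool.Agent.Mont.hD n w = turnOver n w
  | [], _ => rfl
  | (k, i) :: w, n => by
    show (k, n - k.ins - i) :: _ = (k, n - k.ins - i) :: _
    rw [turnOver_eq w]

theorem pD_eq : ∀ (w : Diag) (n : ℕ),
    Pool.Agent.Mont.pD n w = Pool.Agent.Mont.flipD (Pool.Agent.Mont.hD n w)
  | [], _ => rfl
  | (k, i) :: w, n => by
    show Pool.Agent.Mont.pD _ w ++ _ = Pool.Agent.Mont.flipD ((k, n - k.ins - i) :: _)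
    rw [pD_eq w, Pool.Agent.Mont.flipD_cons]

theorem ofDiag_congr {x y : Diag} (e : x = y) (h : IsLongKnot x) (h' : IsLongKnot y) :
    ofDiag x h = ofDiag y h' := by
  subst e
  rfl

theorem mutant_of {u t t' v : Diag} {i m : ℕ} (hu : cnt 1 u = some m) (hi : i + 2 ≤ m)
    (ht : cnt 2 t = some 2) (hr : t' = Pool.Agent.Mont.hD 2 t ∨ t' = Pool.Agent.Mont.flipD t)
    (h : IsLongKnot (u ++ sh i t ++ v)) (h' : IsLongKnot (u ++ sh i t' ++ v)) :
    IsMutant (ofDiag _ h) (ofDiag _ h') := by
  refine ⟨u, t, t', v, i, m, h, h', ?_, hi, ?_, ?_, rfl, rfl⟩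
  · rw [← strands_eq]; exact hu
  · rw [← strands_eq]; exact ht
  · rcases hr with hr | hr
    · right; rw [hr, turnOver_eq]
    · left; rw [hr, flip_eq]

/-- mutation equivalence of diagrams gives mutation equivalence of knots -/
theorem mu_knot (hM : MLK_Stmt) {x y : Diag} (h : Mu 1 x y) :
    ∀ (hx : IsLongKnot x) (hy : IsLongKnot y), MutationEquivalent (ofDiag x hx) (ofDiag y hy) := by
  induction h using Pool.Agent.TZ.Mu.ind with
  | eqd h =>
    intro hx hy
    rw [h.knot hx]
    exact Relation.EqvGen.refl _
  | mutn u t t' v i m k hu hi ht hr hv =>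
    intro hx hy
    cases hr with
    | hd => exact Relation.EqvGen.rel _ _ (mutant_of hu hi ht (Or.inl rfl) hx hy)
    | fl => exact Relation.EqvGen.rel _ _ (mutant_of hu hi ht (Or.inr rfl) hx hy)
    | pd =>
      have h1 : IsLongKnot (u ++ sh i (Pool.Agent.Mont.hD 2 t) ++ v) :=
        (hM _ _ (Mu.mut u t _ v i m k hu hi ht (Rot3.hd t) hv)).1 hx
      have h2 : cnt 2 (Pool.Agent.Mont.hD 2 t) = some 2 := Pool.Agent.Mont.cnt_hD t ht
      exact Relation.EqvGen.trans _ _ _
        (Relation.EqvGen.rel _ _ (mutant_of hu hi ht (Or.inl rfl) hx h1))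
        (Relation.EqvGen.rel _ _ (mutant_of hu hi h2 (Or.inr (pD_eq t 2)) h1 hy))
  | symm _ ih => exact fun hx hy => Relation.EqvGen.symm _ _ (ih hy hx)
  | trans h _ ih1 ih2 =>
    intro hx hz
    have hy := (hM _ _ h).1 hx
    exact Relation.EqvGen.trans _ _ _ (ih1 hx hy) (ih2 hy hz)

theorem forall₂_tr {R : Tr → Tr → Prop} : ∀ (l l' : List Tree),
    List.Forall₂ R (l.map tr) (l'.map tr) → List.Forall₂ (fun T T' => R (tr T) (tr T')) l l' := by
  intro l l' h
  rw [List.forall₂_map_left_iff, List.forall₂_map_right_iff] at h
  exact h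

theorem forall₂_mem {α β : Type} {R Q : α → β → Prop} {l : List α} {l' : List β}
    (h : List.Forall₂ R l l') : (∀ a ∈ l, ∀ b ∈ l', R a b → Q a b) → List.Forall₂ Q l l' := by
  induction h with
  | nil => intro _; exact List.Forall₂.nil
  | cons r _ ih =>
    intro k
    exact List.Forall₂.cons (k _ List.mem_cons_self _ List.mem_cons_self r)
      (ih fun a ha b hb => k a (List.mem_cons_of_mem _ ha) b (List.mem_cons_of_mem _ hb))

theorem perm_tr (X : List Tree) (l : List Tr) (h : l.Perm (X.map tr)) :
    ∃ Y : List Tree, Y.Perm X ∧ Y.map tr = l := by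
  have h1 : List.Forall₂ (fun b a => b = tr a) (X.map tr) X := by
    rw [List.forall₂_map_left_iff, List.forall₂_same]
    exact fun _ _ => rfl
  obtain ⟨Y, h2, h3⟩ := List.perm_comp_forall₂ h h1
  refine ⟨Y, h3, ?_⟩
  clear h h1 h3
  induction h2 with
  | nil => rfl
  | cons r _ ih => rw [List.map_cons, ih, r]

/-! ### The theorem -/

/-- Let `K` and `K'` be the connected sums of `S` and `S'`, `S` generic. Let `S'` be generic; or let `S`
have at most one tree or at most as many trees as `S'`, and `S'` be nondegenerate or of at most the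
complexity of `S`. If all rational valued finite type invariants agree on `K` and `K'`, then `K` and `K'`
are related by mutations, the vertices of `S` and `S'` have the same sums of slopes and the same slopes
modulo 1, after a permutation of the trees of `S'` the closures of the trees of `S` and `S'` are knots
related by mutations, and the connected sums of the 2-bridge knots are the same knot. -/
theorem result (S S' : Summands) (K K' : Knot) (hK : IsConnectedSum S K)
    (hK' : IsConnectedSum S' K') (hS : S.IsGeneric)
    (hS' : S'.IsGeneric ∨ ((S.trees.length ≤ 1 ∨ S.trees.length ≤ S'.trees.length) ∧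
      (S'.IsNondegenerate ∨ S'.complexity ≤ S.complexity)))
    (hv : ∀ v : Knot → ℚ, IsFiniteType v → v K = v K') :
    MutationEquivalent K K' ∧
      (S.vertices.map fun x => (Vertex.sum x, x.2.map Prod.fst)) =
        (S'.vertices.map fun x => (Vertex.sum x, x.2.map Prod.fst)) ∧
      (∃ Ts : List Tree, Ts.Perm S'.trees ∧
        List.Forall₂ ClosuresMutationEquivalent S.trees Ts) ∧
      ∃ (k : IsLongKnot (sumDiagram S.rationals)) (k' : IsLongKnot (sumDiagram S'.rationals)),
        ofDiag _ k = ofDiag _ k' := by
  obtain ⟨hP, h, rfl⟩ := hK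
  obtain ⟨hP', h', rfl⟩ := hK'
  have sp : ∀ X : Summands, Pool.Agent.UA.cls (X.trees.map tr ++ X.rationals.map tr) =
      sumDiagram (X.trees ++ X.rationals) := fun X => by
    rw [← List.map_append, sum_tr]
  have l1 : IsLongKnot (Pool.Agent.UA.cls (S.trees.map tr ++ S.rationals.map tr)) := by
    rw [sp]; exact h
  have l2 : IsLongKnot (Pool.Agent.UA.cls (S'.trees.map tr ++ S'.rationals.map tr)) := by
    rw [sp]; exact h'
  have hv' : ∀ v : Knot → ℂ, IsFiniteType v → v (ofDiag _ l1) = v (ofDiag _ l2) := by
    intro v hvf
    rw [ofDiag_congr (sp S) l1 h, ofDiag_congr (sp S') l2 h']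
    exact Pool.Agent.TwoBr.complex_of_rat hv v hvf
  have n1 := ndr hS.nondegenerate
  have p1 := prp hP
  have hc' : NdR (S'.trees.map tr) ∨
      Pool.Agent.TZ.cx (S'.trees.map tr) ≤ Pool.Agent.TZ.cx (S.trees.map tr) := by
    rw [cx_tr, cx_tr]
    rcases hS' with hS' | ⟨-, hS' | hS'⟩
    · exact Or.inl (ndr hS'.nondegenerate)
    · exact Or.inl (ndr hS')
    · exact Or.inr hS'
  have ht' : ((S.trees.map tr).length = (S'.trees.map tr).length ∧
      Two (S'.trees.map tr) (S'.rationals.map tr)) ∨ (Ntv (S.trees.map tr) ∧
      ((S.trees.map tr).length ≤ (S'.trees.map tr).length ∨ (S.trees.map tr).length ≤ 1 ∨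
        (Two (S'.trees.map tr) (S'.rationals.map tr) ∧ Ntv (S'.trees.map tr)))) := by
    rw [List.length_map, List.length_map]
    refine Or.inr ⟨ntv hS, ?_⟩
    rcases hS' with hS' | ⟨hl | hl, -⟩
    · exact Or.inr (Or.inr ⟨two hS', ntv hS'⟩)
    · exact Or.inr (Or.inl hl)
    · exact Or.inl hl
  obtain ⟨hVS, Hs, p1, p2, p3⟩ := fint_all _ _ _ _ l1 l2
    ⟨p1.root, p1.rat, n1.wt, n1.nz, n1.ndg, n1.dif, two hS⟩ (edg hS) (prp hP') hc' ht' hv'
  -- summands are long knots
  have one : ∀ T : Tree, cnt 1 (closure T.diagram) = some 1 := by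
    intro T
    have := (t_FCG.2.2.2.1 _ (t_FCG.2.2.2.2.1 (tr T))).2
    rw [dg_tr] at this
    exact this
  have all : ∀ (X : Summands), IsLongKnot (sumDiagram (X.trees ++ X.rationals)) →
      ∀ T ∈ X.trees, IsLongKnot (closure T.diagram) := by
    intro X hX T hT
    refine Pool.Agent.TX.AsmY.flat_long Pool.Agent.UA.t_LKB
      ((X.trees ++ X.rationals).map fun T => closure T.diagram) [] rfl ?_ ?_ _
      (List.mem_map.2 ⟨T, List.mem_append_left _ hT, rfl⟩)
    · intro x hx
      obtain ⟨U, -, rfl⟩ := List.mem_map.1 hx
      exact one U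
    · exact hX
  have rest : ∀ (X : Summands), IsLongKnot (sumDiagram (X.trees ++ X.rationals)) →
      IsLongKnot (sumDiagram X.rationals) := by
    intro X hX
    have c1 : ∀ l : List Tree, cnt 1 (sumDiagram l) = some 1 := by
      intro l
      rw [← sum_tr]
      exact t_FCG.2.2.2.2.2.1 _
    refine Pool.Agent.TX.AsmY.summand Pool.Agent.UA.t_LKB (u := sumDiagram X.trees) (w := [])
      (c1 _) (c1 _) ?_
    rw [List.append_nil]
    have : sumDiagram (X.trees ++ X.rationals) = sumDiagram X.trees ++ sumDiagram X.rationals := by
      unfold sumDiagram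
      rw [List.map_append, List.flatten_append]
    rwa [this] at hX
  obtain ⟨Ts, q1, rfl⟩ := perm_tr S'.trees Hs p1
  refine ⟨?_, ?_, ⟨Ts, q1, ?_⟩, rest S h, rest S' h', ?_⟩
  · have m := msm_all _ _ _ _ _ p2 p1 p3
    rw [sp, sp] at m
    exact mu_knot mlk_all m h h'
  · rw [← vs_tr, ← vs_tr]
    exact hVS
  · refine forall₂_mem (forall₂_tr _ _ p2) fun T hT T' hT' m => ?_
    have e1 : Pool.Agent.UA.cl (tr T).dg = closure T.diagram := by rw [dg_tr]; rfl
    have e2 : Pool.Agent.UA.cl (tr T').dg = closure T'.diagram := by rw [dg_tr]; rfl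
    rw [e1, e2] at m
    exact ⟨all S h T hT, all S' h' T' (q1.mem_iff.1 hT'), mu_knot mlk_all m _ _⟩
  · have e1 := sum_tr S.rationals
    have e2 := sum_tr S'.rationals
    rw [e1, e2] at p3
    exact p3.knot (rest S h)

end Pool.Agent.Results.MP_31fd3b_gt.SeparateGenericArborescent
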