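import Pool.Agent.WD3.Final

/-!
Finite type invariants with values in any given nontrivial abelian group separate all graph knots
and all their iterated generalised twisted doubles.
-/

namespace Pool.Agent.Results.MP_31fd3b_gt.SeparateIteratedDoubles

open Pool.Agent.LibH11.Sliced Pool.Agent.WD Pool.Agent.WD3

/-- Let `A` be a nontrivial abelian group. Let `K` and `K'` belong to the smallest class of knots that
contains all graph knots (the members of the smallest class of knots that contains the unknot and is
closed under cabling and connected sum) and that contains, with every knot, all its generalised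
twisted doubles, with any number `k ≠ 0` of full twists in the place of the clasp (`k = 1` and `k = -1`
are the Whitehead doubles) and any number of twists of the two parallel strands (iterated doubles of
any depth). If every finite type invariant with values in `A` takes the same value on `K` and `K'`,
then `K = K'`. -/
theorem result (A : Type*) [AddCommGroup A] [Nontrivial A] (K K' : Knot)
    (hK : IsIterated K) (hK' : IsIterated K')
    (h : ∀ v : Knot → A, IsFiniteType v → v K = v K') : K = K' :=
  main_thm A K K' hK hK' h

/-- Every closed braid `w` on `n + 1` strands that is a knot has a diagram of a long knot. -/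
theorem isLongKnot_cl (n : ℕ) (w : IT.Word) (hw : ∀ x ∈ w, x.1 < n)
    (h : LibH11.IsKnot (IT.ev n w)) : IsLongKnot (cl n w) :=
  (long_all n w hw h).1

/-- The generalised doubles of every diagram of a long knot are diagrams of long knots. -/
theorem isLongKnot_gdouble (D : Diag) (hD : IsLongKnot D) (k m : ℤ) :
    IsLongKnot (gdouble k m D) :=
  Top.long_g hD k m

/-- Braid words with the same closure give the same long knot, so that `cl` depends only on the
closed braid. -/
theorem cl_eq (n n' : ℕ) (w w' : IT.Word) (hw : ∀ x ∈ w, x.1 < n) (hw' : ∀ x ∈ w', x.1 < n')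
    (h : LibH11.IsKnot (IT.ev n w)) (h' : LibH11.IsKnot (IT.ev n' w'))
    (hc : LibH11.closure (IT.ev n w) h = LibH11.closure (IT.ev n' w') h') :
    ofDiag (cl n w) (isLongKnot_cl n w hw h) = ofDiag (cl n' w') (isLongKnot_cl n' w' hw' h') :=
  cl_all n n' w w' hw hw' h h' hc _ _

/-- Alexander's theorem: every knot is the closure of a braid. -/
theorem exists_cl (K : Knot) : ∃ (n : ℕ) (w : IT.Word) (_ : LibH11.IsKnot (IT.ev n w))
    (hl : IsLongKnot (cl n w)), (∀ x ∈ w, x.1 < n) ∧ K = ofDiag (cl n w) hl := by
  induction K using Quot.ind with
  | mk x =>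
    obtain ⟨D, hD⟩ := x
    obtain ⟨n, w, hw, h, hE⟩ := WD2.alx_all D hD
    exact ⟨n, w, h, hE.isLongKnot hD, hw, hE.knot hD⟩

/-- Two diagrams of the same knot have the same generalised doubles, up to the number of twists of
the parallel strands. -/
theorem gdouble_eq (D D' : Diag) (hD : IsLongKnot D) (hD' : IsLongKnot D')
    (h : ofDiag D hD = ofDiag D' hD') : ∃ c : ℤ, ∀ k m : ℤ,
    ofDiag (gdouble k m D) (isLongKnot_gdouble D hD k m) =
      ofDiag (gdouble k (m + c) D') (isLongKnot_gdouble D' hD' k (m + c)) := by
  obtain ⟨c, hc⟩ := Top.dbk (WD2.Asm.eqd_of_knot h) hD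
  exact ⟨c, fun k m => (hc k m).knot _⟩

/-- For `k = 1` and `k = -1` the generalised doubles are the twisted Whitehead doubles. -/
theorem gdouble_whitehead (m : ℤ) (D : Diag) :
    gdouble 1 m D = double true m D ∧ gdouble (-1) m D = double false m D :=
  ⟨WD3.Asm.gd_pos m D, WD3.Asm.gd_neg m D⟩

end Pool.Agent.Results.MP_31fd3b_gt.SeparateIteratedDoubles
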