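import Pool.Agent.TX.Final

/-!
Rational finite type (Vassiliev) invariants separate the connected sums of any number of 2-bridge
knots and any number of Montesinos knots with three rational tangles (for example pretzel knots with
three strands) and pairwise different sums of slopes from every arborescent knot (Conway's algebraic
knots), up to the orientation of the Montesinos summands whose three denominators are odd.
-/

namespace Pool.Agent.Results.MP_31fd3b_gt.SeparateThreeTangleSums

open Pool.Agent.LibH11.Sliced

/-- The diagram with `k` vertical strands added on the left. -/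
def shift (k : ℕ) (w : Diag) : Diag := w.map fun p => (p.1, p.2 + k)

/-- A tangle from two strands to two strands, rotated by a quarter turn (clockwise): the left
output of the rotated tangle is joined, by a minimum on the left, to the left input of `t`, the
right input is joined, by a maximum on the right, to the right output of `t`. -/
def rotate (t : Diag) : Diag := (.cup, 0) :: (shift 1 t ++ [(.cap, 2)])

/-- Arborescent tangles, i.e. the algebraic tangles of Conway: the smallest class of tangles from
two strands to two strands which contains the two vertical strands and the two crossings and is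
closed under stacking (Conway's sum) and rotation by a quarter turn. -/
inductive IsArborescentTangle : Diag → Prop
  | strands : IsArborescentTangle []
  | crossing (e : Bool) : IsArborescentTangle [(.crs e, 0)]
  | stack {s t : Diag} : IsArborescentTangle s → IsArborescentTangle t →
      IsArborescentTangle (s ++ t)
  | rotate {t : Diag} : IsArborescentTangle t → IsArborescentTangle (rotate t)

/-- The closure of a tangle from two strands to two strands, as a long diagram: the right output is
joined to the right input, the closed diagram is cut open between the left output and the left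
input. -/
def closure (t : Diag) : Diag := (.cup, 1) :: (t ++ [(.cap, 1)])

/-- `K` is an arborescent knot: it is the closure of an arborescent tangle. -/
def IsArborescent (K : Knot) : Prop :=
  ∃ t : Diag, IsArborescentTangle t ∧ ∃ h : IsLongKnot (closure t), K = ofDiag (closure t) h

/-- The number of local minima (slices of kind `cup`) of a diagram. -/
def minima : Diag → ℕ
  | [] => 0
  | (.cup, _) :: w => minima w + 1
  | (.cap, _) :: w => minima w
  | (.crs _, _) :: w => minima w

/-- A long diagram of a 2-bridge knot or of the unknot: closing a long strand adds one minimum and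
one maximum, so these are the long knot diagrams with at most one minimum. -/
def IsTwoBridge (w : Diag) : Prop := IsLongKnot w ∧ minima w ≤ 1

/-- Rational tangles with their slopes: `IsRationalTangle t (x, y)` says that `t` is obtained from
the two vertical strands (slope `0 / 1`) by adding crossings on the top, which changes the slope
`x / y` to `x / y - 1` or `x / y + 1`, and rotations by a quarter turn, which change the slope `x / y`
to `-y / x`. -/
inductive IsRationalTangle : Diag → ℤ × ℤ → Prop
  | strands : IsRationalTangle [] (0, 1)
  | twist (e : Bool) {t : Diag} {x y : ℤ} : IsRationalTangle t (x, y) →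
      IsRationalTangle (t ++ [(.crs e, 0)]) (if e then x - y else x + y, y)
  | rotate {t : Diag} {x y : ℤ} : IsRationalTangle t (x, y) → IsRationalTangle (rotate t) (-y, x)

/-- Three tangles `r`, `s`, `t` with slopes `x / a`, `y / b`, `z / c`. -/
structure Triple where
  r : Diag
  s : Diag
  t : Diag
  x : ℤ
  a : ℤ
  y : ℤ
  b : ℤ
  z : ℤ
  c : ℤ

/-- The tangles are rational with the given slopes, the denominators have absolute value at least
`2`. -/
def Triple.IsRational (m : Triple) : Prop :=
  IsRationalTangle m.r (m.x, m.a) ∧ IsRationalTangle m.s (m.y, m.b) ∧
    IsRationalTangle m.t (m.z, m.c) ∧ 2 ≤ |m.a| ∧ 2 ≤ |m.b| ∧ 2 ≤ |m.c|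

/-- The long diagram of the Montesinos link of the three tangles: the closure of the three tangles,
one above the other. -/
def Triple.diagram (m : Triple) : Diag := closure (m.r ++ (m.s ++ m.t))

/-- The sum of the three slopes. -/
def Triple.slopeSum (m : Triple) : ℚ := (m.x : ℚ) / m.a + (m.y : ℚ) / m.b + (m.z : ℚ) / m.c

/-- The three denominators are odd. -/
def Triple.AllOdd (m : Triple) : Prop := Odd m.a ∧ Odd m.b ∧ Odd m.c

/-- A slice turned upside down: minima and maxima are exchanged, crossings keep their kind. -/
def flipKind : Kind → Kind
  | .cup => .cap
  | .cap => .cup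
  | .crs e => .crs e

/-- The diagram rotated by `π` about a horizontal axis in the plane of the diagram: every slice is
turned upside down, and the order of the slices is reversed. For a long knot diagram this is the
same knot with the reversed orientation: after the rotation the long knot, which is oriented from
bottom to top, runs through the same curve in the opposite direction. -/
def flip (w : Diag) : Diag := (w.map fun p => (flipKind p.1, p.2)).reverse

/-- `n` is the diagram of `m`, or the three denominators are odd and `n` is the reversed one. -/
def IsDiagramOrReverse (n : Diag) (m : Triple) : Prop :=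
  n = m.diagram ∨ (m.AllOdd ∧ n = flip m.diagram)

theorem arb_of {t : Diag} (h : IsArborescentTangle t) : Pool.Agent.UA.Arb t := by
  induction h with
  | strands => exact .one
  | crossing e => exact .crs e
  | stack _ _ h1 h2 => exact .comp h1 h2
  | rotate _ h => exact .rot h

theorem minima_eq : ∀ w : Diag, minima w = Pool.Agent.TwoBr.minima w
  | [] => rfl
  | (.cup, _) :: w => by simp only [minima, Pool.Agent.TwoBr.minima, minima_eq w]
  | (.cap, _) :: w => by simp only [minima, Pool.Agent.TwoBr.minima, minima_eq w]
  | (.crs _, _) :: w => by simp only [minima, Pool.Agent.TwoBr.minima, minima_eq w]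

theorem rat_of {t : Diag} {v : ℤ × ℤ} (h : IsRationalTangle t v) : Pool.Agent.TW.RatT t v := by
  induction h with
  | strands => exact .strands
  | twist e _ h => exact .twist e h
  | rotate _ h => exact .rotate h

theorem flipKind_eq (k : Kind) : flipKind k = Pool.Agent.Mont.flipK k := by cases k <;> rfl

theorem flip_eq (w : Diag) : flip w = Pool.Agent.Mont.flipD w := by
  have h : flipKind = Pool.Agent.Mont.flipK := funext flipKind_eq
  unfold flip Pool.Agent.Mont.flipD
  rw [h]

/-- the data in the form of the library -/
def Triple.tri (m : Triple) : Pool.Agent.TX.Tri :=
  ⟨m.r, m.s, m.t, (m.x, m.a), (m.y, m.b), (m.z, m.c)⟩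

/-- Let `K` be an arborescent knot and `K'` the connected sum of the 2-bridge knots with the diagrams
`ws` and the Montesinos knots of the triples `ms` of rational tangles, whose sums of slopes are
pairwise different. (Stacking long diagrams is the connected sum.) If all rational valued finite type
invariants agree on `K` and `K'` then `K` is the connected sum of the same 2-bridge knots and of the
same Montesinos knots, some of which may be reversed, all of these with three odd denominators. -/
theorem result (K K' : Knot) (hK : IsArborescent K) (ws : List Diag)
    (hws : ∀ w ∈ ws, IsTwoBridge w) (ms : List Triple) (hms : ∀ m ∈ ms, m.IsRational)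
    (hne : (ms.map Triple.slopeSum).Nodup)
    (hl : IsLongKnot (ws.flatten ++ (ms.map Triple.diagram).flatten))
    (hK' : K' = ofDiag (ws.flatten ++ (ms.map Triple.diagram).flatten) hl)
    (h : ∀ v : Knot → ℚ, IsFiniteType v → v K = v K') :
    ∃ (ns : List Diag) (hn : IsLongKnot (ws.flatten ++ ns.flatten)),
      List.Forall₂ IsDiagramOrReverse ns ms ∧ K = ofDiag (ws.flatten ++ ns.flatten) hn := by
  obtain ⟨t, ht, hlt, rfl⟩ := hK
  subst hK'
  have e1 : (ms.map Triple.tri).map Pool.Agent.TX.Tri.dg = ms.map Triple.diagram := by
    rw [List.map_map]
    rfl
  have e2 : (ms.map Triple.tri).map Pool.Agent.TX.Tri.sm = ms.map Triple.slopeSum := by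
    rw [List.map_map]
    rfl
  have hl' : IsLongKnot (ws.flatten ++
      ((ms.map Triple.tri).map Pool.Agent.TX.Tri.dg).flatten) := by
    rw [e1]
    exact hl
  have key : ∀ (D : Diag) (hD : IsLongKnot D),
      ws.flatten ++ (ms.map Triple.diagram).flatten = D →
      ofDiag (ws.flatten ++ (ms.map Triple.diagram).flatten) hl = ofDiag D hD := by
    intro D hD h1
    subst h1
    rfl
  obtain ⟨ns, h1, h2⟩ := Pool.Agent.TX.separate_all t (arb_of ht) hlt ws
    (fun w hw => ⟨(hws w hw).1, by rw [← minima_eq]; exact (hws w hw).2⟩) (ms.map Triple.tri)
    (by
      intro x hx
      obtain ⟨m, hm, rfl⟩ := List.mem_map.1 hx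
      obtain ⟨k1, k2, k3, k4, k5, k6⟩ := hms m hm
      exact ⟨⟨rat_of k1, rat_of k2, rat_of k3⟩, k4, k5, k6⟩)
    (by rw [e2]; exact hne) hl'
    (by
      intro v hv
      exact (h v hv).trans (congrArg v (key _ hl' (by rw [e1]))))
  refine ⟨ns, h2.isLongKnot hlt, ?_, h2.knot hlt⟩
  rw [List.forall₂_map_right_iff] at h1
  refine h1.imp fun n m h3 => ?_
  rcases h3 with h3 | ⟨h3, h4⟩
  · exact Or.inl h3
  · exact Or.inr ⟨h3, by rw [flip_eq]; exact h4⟩

end Pool.Agent.Results.MP_31fd3b_gt.SeparateThreeTangleSums
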